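import Pool.Agent.Helper10.Qc.Stmts

set_option autoImplicit false

namespace Pool.Agent.Helper10.Qc

open Pool.Agent.Helper19.Qh Pool.Agent.Helper19.Qc

theorem hg1_aux (h q : ℝ) (hh : 0 < h) (hq0 : 0 ≤ q) (hq : q ≤ 1 / 2)
    (h1 : 2 ≤ (h + q) ^ 2 + (h + q))
    (h2 : 4 * (q * (2 - q)) ≤ ((h + q) ^ 2 + (h + q) - 2) ^ 2)
    (h3 : 2 + 2 * q ≤ (h + 1 - q) ^ 2) : 1 ≤ h := by
  by_contra hc
  rw [not_le] at hc
  have hT0 : 0 ≤ (h + q) ^ 2 + (h + q) - 2 := by linarith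
  have hT : (h + q) ^ 2 + (h + q) - 2 < 3 * q + q ^ 2 := by nlinarith
  rcases le_or_gt q (49 / 100) with h4 | h4
  · have hT2 : ((h + q) ^ 2 + (h + q) - 2) ^ 2 < (3 * q + q ^ 2) ^ 2 := by
      apply pow_lt_pow_left₀ hT hT0 two_ne_zero
    rcases hq0.eq_or_lt with h5 | h5
    · rw [← h5] at hT hT0
      nlinarith
    · have h6 : 4 * (q * (2 - q)) < (3 * q + q ^ 2) ^ 2 := lt_of_le_of_lt h2 hT2
      have h7 : (3 * q + q ^ 2) ^ 2 - 4 * (q * (2 - q)) = q * (13 * q + 6 * q ^ 2 + q ^ 3 - 8) := by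
        ring
      have h8 : 13 * q + 6 * q ^ 2 + q ^ 3 - 8 ≤ 0 := by
        have e1 : q ^ 2 ≤ (49 / 100) ^ 2 := pow_le_pow_left₀ hq0 h4 2
        have e2 : q ^ 3 ≤ (49 / 100) ^ 3 := pow_le_pow_left₀ hq0 h4 3
        norm_num at e1 e2 ⊢
        linarith
      have h9 : q * (13 * q + 6 * q ^ 2 + q ^ 3 - 8) ≤ 0 :=
        mul_nonpos_of_nonneg_of_nonpos hq0 h8
      linarith
  · have h5 : h + 1 - q < 151 / 100 := by linarith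
    have h6 : 0 ≤ h + 1 - q := by linarith
    have h7 : (h + 1 - q) ^ 2 < (151 / 100) ^ 2 := pow_lt_pow_left₀ h5 h6 two_ne_zero
    norm_num at h7
    linarith

theorem st_HG1 : ST_HG1 := by
  intro h ζ hh hζ hR
  obtain ⟨⟨h1, h2⟩, h3⟩ := hR
  exact hg1_aux h (‖ζ‖ ^ 2) hh (by positivity) hζ h1 h2 h3

theorem st_DN : ST_DN := by
  intro ζ hD
  obtain ⟨h1, h2, -, -⟩ := hD
  rw [q_norm_sq]
  have a1 := abs_nonneg ζ.imI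
  have a2 := abs_nonneg ζ.imJ
  have a3 := abs_nonneg ζ.imK
  have b1 : ζ.imI ^ 2 = |ζ.imI| ^ 2 := (sq_abs _).symm
  have b2 : ζ.imJ ^ 2 = |ζ.imJ| ^ 2 := (sq_abs _).symm
  have b3 : ζ.imK ^ 2 = |ζ.imK| ^ 2 := (sq_abs _).symm
  have h0 : 0 ≤ ζ.re := le_trans (by positivity) h2
  have c1 : (|ζ.imI| + |ζ.imJ| + |ζ.imK|) ^ 2 ≤ ζ.re ^ 2 := pow_le_pow_left₀ (by positivity) h2 2
  have c2 : ζ.re ^ 2 ≤ (1 / 2) ^ 2 := pow_le_pow_left₀ h0 h1 2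
  rw [b1, b2, b3]
  nlinarith [mul_nonneg a1 a2, mul_nonneg a1 a3, mul_nonneg a2 a3]

end Pool.Agent.Helper10.Qc
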