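import Pool.Agent.Helper10.Qc.Stmts

set_option autoImplicit false

namespace Pool.Agent.Helper10.Qc

open Pool.Agent.Helper19.Qh Pool.Agent.Helper19.Qc

theorem st_HZ : ST_HZ := by
  intro q
  rw [mem_HO]
  constructor
  · rintro ⟨n, b, c, d, rfl⟩
    refine ⟨![n, n + 2 * b, n + 2 * c, n + 2 * d], ?_, ?_, ?_, ?_⟩
    · exact ⟨b, by simp⟩
    · exact ⟨c, by simp⟩
    · exact ⟨d, by simp⟩
    · apply Quaternion.ext <;> simp only [hq_re, hq_i, hq_j, hq_k, hf] <;> simp <;> ring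
  · rintro ⟨x, ⟨b, hb⟩, ⟨c, hc⟩, ⟨d, hd⟩, rfl⟩
    have e1 : (x 1 : ℝ) = x 0 + 2 * b := by
      have : x 1 = x 0 + 2 * b := by linarith
      exact_mod_cast this
    have e2 : (x 2 : ℝ) = x 0 + 2 * c := by
      have : x 2 = x 0 + 2 * c := by linarith
      exact_mod_cast this
    have e3 : (x 3 : ℝ) = x 0 + 2 * d := by
      have : x 3 = x 0 + 2 * d := by linarith
      exact_mod_cast this
    refine ⟨x 0, b, c, d, ?_⟩
    apply Quaternion.ext <;> simp only [hq_re, hq_i, hq_j, hq_k, hf]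
    · rw [e1]; ring
    · rw [e2]; ring
    · rw [e3]; ring

end Pool.Agent.Helper10.Qc
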