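import Pool.Agent.Helper10.Qc.Stmts

set_option autoImplicit false

namespace Pool.Agent.Helper10.Qc

open Pool.Agent.Helper19.Qh Pool.Agent.Helper19.Qc

/-- the action on the orbit -/
noncomputable def invE (g : V 1 ≃ₗ[Q] V 1) (hg : g ∈ Gam MO) : Orb MO ≃ Orb MO where
  toFun w := ⟨g w, Orb_smul hg w.2⟩
  invFun w := ⟨g⁻¹ w, Orb_smul ((Gam MO).inv_mem hg) w.2⟩
  left_inv w := by
    apply Subtype.ext
    exact g.symm_apply_apply w
  right_inv w := by
    apply Subtype.ext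
    exact g.apply_symm_apply w

theorem inv_uval (g : V 1 ≃ₗ[Q] V 1) (hg : g ∈ Gam MO) (w : V 1) {p : Pt 1} (hp : p ∈ SD 1) :
    uval (g w) (act g p) = uval w p := by
  have h := uval_act hg.1 (g w) hp
  rw [h]
  congr 1
  exact g.symm_apply_apply w

theorem st_INV : ST_INV := by
  intro F g hg p hp
  rw [← Equiv.tsum_eq (invE g hg)]
  refine tsum_congr fun w => ?_
  rw [show ((invE g hg w : Orb MO) : V 1) = g w from rfl, inv_uval g hg _ hp]

theorem st_TOPI : ST_TOPI := by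
  intro g hg p h ht
  refine ⟨act_mem hg.1 ht.1, fun w hw => ?_⟩
  rw [h]
  have h1 := ht.2 (g⁻¹ w) (Orb_smul ((Gam MO).inv_mem hg) hw)
  have h2 := inv_uval g hg (g⁻¹ w) ht.1
  rw [show g (g⁻¹ w) = w from g.apply_symm_apply w] at h2
  rw [h2]
  exact h1

end Pool.Agent.Helper10.Qc
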